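import Mathlib
import Pool.Agent.V11242.RN.Defs

/-!
# A family of random reals all of whose finite powers are Sierpiński sets

`StrongFor K`: there is a family `r` of elements of `2^ω`, indexed by `K`, such that for every `n`
and every null set (with code `c`) there is a countable subset of `K` (the range of the partial
function `E`) with the following property: if `t 0, …, t n` are different elements of `K` outside
of this countable subset, then the element of `2^ω` which is obtained by interleaving
`r (t 0), …, r (t n)` does not belong to the null set.
-/

set_option autoImplicit false

namespace Pool.Agent.Zk92.SS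

open Pool.Agent.TH773.PSet Pool.Agent.V11242.RN

universe u

/-- The sequence which is obtained by interleaving the `n + 1` sequences `x 0, …, x n`: its entry
with index `m = k (n + 1) + i`, `i ≤ n`, is the entry of `x i` with index `k`. -/
def join {β : Type u} {n : ℕ} (x : Fin (n + 1) → ℕ → β) (m : ℕ) : β :=
  x (Fin.ofNat (n + 1) m) (m / (n + 1))

section Forcing

variable (P : Type u) [Preorder P]

/-- The sentence `StrongFor K`, in the forcing language. -/
def StrongHolds (K : Type) : Set P :=
  fex fun r : K → ℕ → Set P => fall fun n : ℕ => fall fun c : ℕ → List Bool → Set P =>
    fimp (IsNullCode c) (fex fun E : ℕ → K → Set P => fand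
      (fall fun m => fall fun a => fall fun b => fall fun _ : a ≠ b =>
        fnot (fand (meets (E m a)) (meets (E m b))))
      (fall fun t : Fin (n + 1) → K => fall fun _ : Function.Injective t =>
        fimp (fall fun i => fall fun m => fnot (meets (E m (t i))))
          (fnot (InNull (join fun i => r (t i)) c))))

end Forcing

/-- The family `r` of elements of `2^ω`, indexed by `K`, has the property described above. -/
def StrongFor (K : Type) : Prop :=
  ∃ r : K → ℕ → Bool, ∀ n : ℕ, ∀ c : ℕ → Set (List Bool), NullCode c →
    ∃ E : ℕ → K → Prop, (∀ m a b, a ≠ b → ¬ (E m a ∧ E m b)) ∧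
      ∀ t : Fin (n + 1) → K, Function.Injective t → (∀ i m, ¬ E m (t i)) →
        ¬ InCoded (join fun i => r (t i)) c

end Pool.Agent.Zk92.SS
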