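import Mathlib
import Pool.Agent.V11242.RN.Forced
import Pool.Agent.V11242.RN.Ground
import Pool.Agent.Zk92.SS.Defs

/-!
# Random reals form a family all of whose finite powers are Sierpiński sets
-/

set_option autoImplicit false

namespace Pool.Agent.Zk92.SS

open Pool.Agent.TH773.PSet Pool.Agent.V11242 Pool.Agent.V11242.RN MeasureTheory Set Filter Topology
open Pool.Agent.V11242.RF (rep measurable_rep meets_rep)

variable {I : Type}

/-- the bits with the indices `u 0, u 1, …` -/
def cu (u : ℕ → I × ℕ) (n : ℕ) : Set (I × ℕ → Bool) := {x | x (u n) = true}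

theorem meas_cu (u : ℕ → I × ℕ) : Meas (cu u) := fun n => (dep_coord (mem_singleton (u n))).meas

theorem dep_cu (u : ℕ → I × ℕ) (σ : List Bool) : Dep (range u) (ext (cu u) σ) := by
  rw [ext_eq]
  refine Dep.iInter fun n => Dep.iInter fun _ => ?_
  have h : Dep (range u) (cu u n) := dep_coord (T := range u) (t := u n) (mem_range_self n)
  cases σ.getD n false
  · exact h.compl
  · exact h

theorem measure_cu {u : ℕ → I × ℕ} (hu : Function.Injective u) (σ : List Bool) :
    coinProduct I (ext (cu u) σ) = (2 : ENNReal)⁻¹ ^ σ.length := by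
  have h1 : (coinProduct I).map (fun x n => x (u n)) = lam :=
    Measure.map_infinitePi_infinitePi_of_inj (P := fun _ : I × ℕ => coin) hu
  have h2 : ext (cu u) σ = (fun (x : I × ℕ → Bool) n => x (u n)) ⁻¹' cyl σ := by
    ext x
    simp only [RN.ext, cu, cyl, mem_ofPred_eq, mem_preimage]
    exact forall_congr' fun i => forall_congr' fun _ => Bool.eq_iff_iff.symm
  rw [h2, ← Measure.map_apply (by fun_prop) (isOpen_cyl σ).measurableSet, h1, lam_cyl]

/-- If the code `c` does not depend on the bits with the indices `u 0, u 1, …` then the element of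
`2^ω` with these bits does not belong to the null set with code `c`. -/
theorem notInNull' {c : ℕ → List Bool → Set (Random I)} {q : Random I} (hc : q ∈ IsNullCode c)
    {T : Set (I × ℕ)} (hq : Dep T q.1) (hT : ∀ n σ, Dep T (rep (c n σ))) {u : ℕ → I × ℕ}
    (hu : Function.Injective u) (hi : ∀ n, u n ∉ T) :
    q ∈ fnot (InNull (fun n => AE (coinProduct I) (cu u n)) c) := by
  rw [inNull_AE (meas_cu u) fun n => meets_AE (meas_cu u n)]
  intro r hr hr'
  have hdisj : Disjoint T (range u) :=
    Set.disjoint_left.2 fun t h1 ⟨n, h2⟩ => hi n (h2 ▸ h1)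
  have h1 : ∀ n, coinProduct I r.1 ≤ (2 : ENNReal)⁻¹ ^ n := by
    intro n
    have h2 : coinProduct I r.1 ≤
        coinProduct I (⋃ σ, (q.1 ∩ rep (c n σ)) ∩ ext (cu u) σ) := by
      refine measure_mono_ae ?_
      have h3 := mem_AE_iff.1 (le_iff_AE.1 hr)
      have h4 := mem_AE_iff.1 hr'
      filter_upwards [h3, h4] with x h5 h6 h7
      obtain ⟨σ, h8, h9⟩ := h6 h7 n
      exact mem_iUnion.2 ⟨σ, ⟨h5 h7, h8⟩, h9⟩
    refine h2.trans ((measure_iUnion_le _).trans ?_)
    have h3 : ∀ σ, coinProduct I ((q.1 ∩ rep (c n σ)) ∩ ext (cu u) σ) =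
        coinProduct I (q.1 ∩ rep (c n σ)) * (2 : ENNReal)⁻¹ ^ σ.length := by
      intro σ
      rw [dep_indep hdisj (hq.inter (hT n σ)) (dep_cu u σ), measure_cu hu]
    simp only [h3]
    refine (lintegral_code hc n).trans ?_
    calc coinProduct I q.1 * (2 : ENNReal)⁻¹ ^ n ≤ 1 * (2 : ENNReal)⁻¹ ^ n :=
          mul_le_mul_left prob_le_one _
      _ = _ := one_mul _
  refine r.2.2 (le_antisymm ?_ bot_le)
  have h2 := ENNReal.tendsto_pow_atTop_nhds_zero_of_lt_one
    (r := (2 : ENNReal)⁻¹) (ENNReal.inv_lt_one.2 (by norm_num))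
  exact ge_of_tendsto' h2 h1

theorem join_rr {K : Type} (e : K → I) {n : ℕ} (t : Fin (n + 1) → K) :
    (join fun i => rr (e (t i))) = fun m => AE (coinProduct I)
      (cu (fun m => (e (t (Fin.ofNat (n + 1) m)), m / (n + 1))) m) := rfl

theorem idx_inj {K : Type} {e : K → I} (he : Function.Injective e) {n : ℕ}
    {t : Fin (n + 1) → K} (ht : Function.Injective t) :
    Function.Injective fun m : ℕ => (e (t (Fin.ofNat (n + 1) m)), m / (n + 1)) := by
  intro a b h
  have h1 := ht (he (Prod.ext_iff.1 h).1)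
  have h2 : a / (n + 1) = b / (n + 1) := (Prod.ext_iff.1 h).2
  have h3 : a % (n + 1) = b % (n + 1) := congrArg Fin.val h1
  rw [← Nat.div_add_mod a (n + 1), ← Nat.div_add_mod b (n + 1), h2, h3]

/-- Random reals form a family all of whose finite powers are Sierpiński sets. -/
theorem strongHolds {K : Type} (e : K ↪ I) (p : Random I) : p ∈ StrongHolds (Random I) K := by
  classical
  refine mem_fex.2 fun q _ => ⟨q, le_rfl, fun k => rr (e k), fun n c => ?_⟩
  refine mem_fimp.2 fun r _ hc => ⟨r, le_rfl, mem_fex.2 fun s hs => ?_⟩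
  obtain ⟨T0, hT0, hT0'⟩ := exists_countable s.2.1
  choose T1 hT1 hT1' using fun (n : ℕ) (σ : List Bool) =>
    exists_countable (measurable_rep (c n σ))
  let T : Set (I × ℕ) := T0 ∪ ⋃ n, ⋃ σ, T1 n σ
  have hT : T.Countable := hT0.union (countable_iUnion fun n => countable_iUnion (hT1 n))
  let D : Set K := e ⁻¹' (Prod.fst '' T)
  have hD : D.Countable := (hT.image _).preimage_of_injOn e.injective.injOn
  obtain ⟨f, hf⟩ := countable_iff_exists_injOn.1 hD
  have hm : ∀ (m : ℕ) (a : K) (q : Random I), q ∈ meets {_p : Random I | a ∈ D ∧ f a = m} ↔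
      (a ∈ D ∧ f a = m) := by
    intro m a q
    constructor
    · intro h
      obtain ⟨r, -, s, hs, -⟩ := h q le_rfl
      exact hs
    · intro h r _
      exact ⟨r, le_rfl, r, h, le_rfl⟩
  refine ⟨s, le_rfl, fun m a => {_p | a ∈ D ∧ f a = m}, ?_, ?_⟩
  · intro m a b hne r _ hr
    obtain ⟨h1, h2⟩ := (hm m a r).1 hr.1
    obtain ⟨h3, h4⟩ := (hm m b r).1 hr.2
    exact hne (hf h1 h3 (h2.trans h4.symm))
  · intro t ht
    refine mem_fimp.2 fun w hw hw' => ⟨w, le_rfl, ?_⟩
    have h1 : ∀ i, t i ∉ D := by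
      intro i hi
      exact hw' i (f (t i)) w le_rfl ((hm _ _ _).2 ⟨hi, rfl⟩)
    have h2 : s ∈ fnot (InNull (join fun i => rr (e (t i))) c) := by
      rw [join_rr]
      refine notInNull' ((reg_isNullCode c).1 _ hc _ hs) (hT0'.mono subset_union_left) (T := T)
        (fun n σ => ?_) (idx_inj e.injective ht) fun m hm' => ?_
      · exact (hT1' n σ).mono (subset_union_of_subset_right
          (subset_iUnion_of_subset n (subset_iUnion_of_subset σ le_rfl)) T0)
      · exact h1 _ ⟨_, hm', rfl⟩
    intro v hv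
    exact h2 v (hv.trans hw)

end Pool.Agent.Zk92.SS
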