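import Mathlib
import Pool.Agent.Helper872.RN.Transfer
import Pool.Agent.Zk92.SS.Defs

/-!
# From a family of elements of `2^ω` to a set of reals
-/

set_option autoImplicit false

namespace Pool.Agent.Zk92.SS

open MeasureTheory Set Cardinal Pool.Agent.V11242.RN Pool.Agent.Helper872.RN
open Pool.Agent.TH773.PSet (coin)

/-- the entries with indices congruent to `i` -/
def part {n : ℕ} (z : ℕ → Bool) (i : Fin (n + 1)) (k : ℕ) : Bool := z (k * (n + 1) + i.1)

theorem part_join {n : ℕ} (x : Fin (n + 1) → ℕ → Bool) (i : Fin (n + 1)) :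
    part (join x) i = x i := by
  funext k
  have hi := i.2
  have h1 : (k * (n + 1) + i.1) / (n + 1) = k := by
    rw [add_comm, Nat.add_mul_div_right _ _ (Nat.succ_pos n), Nat.div_eq_of_lt hi, zero_add]
  have h2 : Fin.ofNat (n + 1) (k * (n + 1) + i.1) = i := by
    refine Fin.ext ?_
    show (k * (n + 1) + i.1) % (n + 1) = i.1
    rw [add_comm, Nat.add_mul_mod_self_right, Nat.mod_eq_of_lt hi]
  show x (Fin.ofNat (n + 1) (k * (n + 1) + i.1)) ((k * (n + 1) + i.1) / (n + 1)) = x i k
  rw [h1, h2]

theorem map_part (n : ℕ) :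
    lam.map (fun (z : ℕ → Bool) (i : Fin (n + 1)) => part z i) = Measure.pi fun _ => lam := by
  have hinj : Function.Injective fun p : Fin (n + 1) × ℕ => p.2 * (n + 1) + p.1.1 := by
    rintro ⟨i, k⟩ ⟨j, l⟩ h
    simp only at h
    have hi := i.2
    have hj := j.2
    have h1 : (k * (n + 1) + i.1) % (n + 1) = (l * (n + 1) + j.1) % (n + 1) := by rw [h]
    rw [add_comm, Nat.add_mul_mod_self_right, Nat.mod_eq_of_lt hi, add_comm (l * (n + 1)),
      Nat.add_mul_mod_self_right, Nat.mod_eq_of_lt hj] at h1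
    have h2 : k * (n + 1) = l * (n + 1) := by omega
    have h3 := Nat.eq_of_mul_eq_mul_right (Nat.succ_pos n) h2
    exact Prod.ext (Fin.ext h1) h3
  have h1 : lam.map (fun (z : ℕ → Bool) (p : Fin (n + 1) × ℕ) => z (p.2 * (n + 1) + p.1.1)) =
      Measure.infinitePi fun _ : Fin (n + 1) × ℕ => coin :=
    Measure.map_infinitePi_infinitePi_of_inj (P := fun _ : ℕ => coin) hinj
  have h2 := Measure.infinitePi_map_curry (fun (_ : Fin (n + 1)) (_ : ℕ) => coin)
  rw [← h1, Measure.map_map (by fun_prop) (by fun_prop)] at h2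
  rw [← Measure.infinitePi_eq_pi]
  exact h2

/-- the map from `2^ω` to the cube which splits an element and applies binary expansions -/
noncomputable def JJ {n : ℕ} (z : ℕ → Bool) (i : Fin (n + 1)) : ℝ := UU (part z i)

theorem JJ_join {n : ℕ} (x : Fin (n + 1) → ℕ → Bool) : JJ (join x) = fun i => UU (x i) := by
  funext i
  rw [JJ, part_join]

theorem measurable_part (n : ℕ) :
    Measurable (fun (z : ℕ → Bool) (i : Fin (n + 1)) => part z i) := by
  unfold part
  fun_prop

theorem measurable_JJ (n : ℕ) : Measurable (JJ (n := n)) :=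
  measurable_pi_lambda _ fun i => measurable_UU.comp ((measurable_pi_apply i).comp
    (measurable_part n))

theorem map_JJ (n : ℕ) : lam.map (JJ (n := n)) = Measure.pi fun _ => lam.map UU := by
  have : IsProbabilityMeasure (lam.map UU) := Measure.isProbabilityMeasure_map
    measurable_UU.aemeasurable
  have h1 : (JJ (n := n)) = (fun (x : Fin (n + 1) → ℕ → Bool) i => UU (x i)) ∘
    (fun (z : ℕ → Bool) (i : Fin (n + 1)) => part z i) := rfl
  have h2 : Measurable fun (x : Fin (n + 1) → ℕ → Bool) i => UU (x i) :=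
    measurable_pi_lambda _ fun i => measurable_UU.comp (measurable_pi_apply i)
  rw [h1, ← Measure.map_map h2 (measurable_part n), map_part, ← Measure.infinitePi_eq_pi,
    ← Measure.infinitePi_eq_pi]
  exact Measure.infinitePi_map_pi _ fun _ => measurable_UU

theorem map_JJ_null {n : ℕ} {N : Set (Fin (n + 1) → ℝ)} (hN : volume N = 0) :
    lam.map (JJ (n := n)) N = 0 := by
  have hp : IsProbabilityMeasure (lam.map UU) := Measure.isProbabilityMeasure_map
    measurable_UU.aemeasurable
  have h10 : ((10 : ENNReal) ^ (n + 1)) ≠ 0 := by positivity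
  have h10' : ((10 : ENNReal) ^ (n + 1)) ≠ ⊤ := ENNReal.pow_ne_top (by simp)
  have key : (((10 : ENNReal) ^ (n + 1))⁻¹ • lam.map (JJ (n := n))).toOuterMeasure ≤
      OuterMeasure.pi fun _ : Fin (n + 1) => (volume : Measure ℝ).toOuterMeasure := by
    rw [OuterMeasure.le_pi]
    intro s _
    show ((10 : ENNReal) ^ (n + 1))⁻¹ * lam.map (JJ (n := n)) (univ.pi s) ≤ ∏ i, volume (s i)
    rw [map_JJ, Measure.pi_pi]
    have h1 : ∏ i, (lam.map UU) (s i) ≤ ∏ i, ((10 : ENNReal) * volume (s i)) :=
      Finset.prod_le_prod' fun i _ => map_le (s i)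
    have h2 : ∏ i, ((10 : ENNReal) * volume (s i)) = 10 ^ (n + 1) * ∏ i, volume (s i) := by
      rw [Finset.prod_mul_distrib]
      simp
    rw [h2] at h1
    calc ((10 : ENNReal) ^ (n + 1))⁻¹ * ∏ i, (lam.map UU) (s i) ≤
        ((10 : ENNReal) ^ (n + 1))⁻¹ * (10 ^ (n + 1) * ∏ i, volume (s i)) := by gcongr
      _ = ∏ i, volume (s i) := by
        rw [← mul_assoc, ENNReal.inv_mul_cancel h10 h10', one_mul]
  obtain ⟨N', hNN', hN'm, hN'⟩ := exists_measurable_superset_of_null hN
  refine measure_mono_null hNN' ?_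
  have h1 := key N'
  have h2 : OuterMeasure.pi (fun _ : Fin (n + 1) => (volume : Measure ℝ).toOuterMeasure) N' = 0 := by
    have h3 : (volume : Measure (Fin (n + 1) → ℝ)) N' = 0 := hN'
    rw [volume_pi, Measure.pi, toMeasure_apply _ _ hN'm] at h3
    exact h3
  rw [h2] at h1
  have h4 : ((10 : ENNReal) ^ (n + 1))⁻¹ * lam.map (JJ (n := n)) N' ≤ 0 := h1
  have h5 := le_antisymm h4 zero_le
  rcases mul_eq_zero.1 h5 with h6 | h6
  · exact absurd h6 (ENNReal.inv_ne_zero.2 h10')
  · exact h6

theorem lam_preimage_JJ {n : ℕ} {N : Set (Fin (n + 1) → ℝ)} (hN : volume N = 0) :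
    lam (JJ ⁻¹' N) = 0 := by
  obtain ⟨N', hNN', hN'm, hN'⟩ := exists_measurable_superset_of_null hN
  refine measure_mono_null (preimage_mono hNN') ?_
  rw [← Measure.map_apply (measurable_JJ n) hN'm]
  exact map_JJ_null hN'

/-- The set of reals with the binary expansions `r k`: for all null sets `N` of `ℝⁿ` there is a
countable set `D` such that no injective `n`-tuple of members of the set outside of `D` belongs to
`N`. -/
theorem exists_set {K : Type} (h : StrongFor K) (hK : ℵ₀ < #K) :
    ∃ A : Set ℝ, #A ≤ #K ∧ ¬ A.Countable ∧ ∀ (n : ℕ) (N : Set (Fin n → ℝ)), volume N = 0 →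
      ∃ D : Set ℝ, D.Countable ∧ ∀ t : Fin n → ℝ, Function.Injective t → (∀ i, t i ∈ A \ D) →
        t ∉ N := by
  obtain ⟨r, hr⟩ := h
  have main : ∀ (n : ℕ) (N : Set (Fin (n + 1) → ℝ)), volume N = 0 →
      ∃ D : Set K, D.Countable ∧ ∀ t : Fin (n + 1) → K, Function.Injective t → (∀ i, t i ∉ D) →
        (fun i => UU (r (t i))) ∉ N := by
    intro n N hN
    obtain ⟨c, hc, hc'⟩ := exists_code (lam_preimage_JJ hN)
    obtain ⟨E, hE, hE'⟩ := hr n c hc
    refine ⟨⋃ m, {a | E m a}, countable_iUnion fun m => ?_, fun t ht htD hmem => ?_⟩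
    · refine Set.Subsingleton.countable fun a ha b hb => ?_
      by_contra hne
      exact hE m a b hne ⟨ha, hb⟩
    · refine hE' t ht (fun i m hm => htD i (mem_iUnion.2 ⟨m, hm⟩)) (hc' _ ?_)
      rw [mem_preimage, JJ_join]
      exact hmem
  refine ⟨range fun k => UU (r k), mk_range_le, fun hA => ?_, ?_⟩
  · -- the set is not countable
    have h0 : volume ({x : Fin 1 → ℝ | x 0 ∈ range fun k => UU (r k)}) = 0 := by
      refine Set.Countable.measure_zero ?_ _
      have h1 : {x : Fin 1 → ℝ | x 0 ∈ range fun k => UU (r k)} =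
          (fun a : ℝ => fun _ : Fin 1 => a) '' (range fun k => UU (r k)) := by
        ext x
        constructor
        · intro hx
          exact ⟨x 0, hx, funext fun i => by rw [Subsingleton.elim i 0]⟩
        · rintro ⟨a, ha, rfl⟩
          exact ha
      rw [h1]
      exact hA.image _
    obtain ⟨D, hD, hD'⟩ := main 0 _ h0
    obtain ⟨k, hk⟩ : ∃ k, k ∉ D := by
      by_contra hcon
      push Not at hcon
      rw [eq_univ_of_forall hcon] at hD
      exact absurd (mk_le_aleph0_iff.2 (countable_univ_iff.1 hD)) (not_le.2 hK)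
    have hs : Subsingleton (Fin (0 + 1)) := inferInstanceAs (Subsingleton (Fin 1))
    exact hD' (fun _ => k) (fun i j _ => Subsingleton.elim i j) (fun _ => hk) ⟨k, rfl⟩
  · intro n N hN
    rcases n with _ | n
    · refine ⟨∅, countable_empty, fun t _ _ ht => ?_⟩
      have h1 : N = Set.univ := by
        refine eq_univ_of_forall fun x => ?_
        rwa [Subsingleton.elim x t]
      rw [h1] at hN
      have h2 : (volume : Measure (Fin 0 → ℝ)) Set.univ = 1 := by
        rw [volume_pi, Measure.pi_univ]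
        simp
      rw [h2] at hN
      exact one_ne_zero hN
    · obtain ⟨D, hD, hD'⟩ := main n N hN
      refine ⟨(fun k => UU (r k)) '' D, hD.image _, fun t ht htA htN => ?_⟩
      choose w hw using fun i => (htA i).1
      refine hD' w (fun i j hij => ht ?_) (fun i hi => (htA i).2 ⟨w i, hi, hw i⟩) ?_
      · rw [← hw i, ← hw j, hij]
      · have h1 : (fun i => UU (r (w i))) = t := funext hw
        rw [h1]
        exact htN

end Pool.Agent.Zk92.SS
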